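import Pool.Agent.R590.TdInd

set_option autoImplicit false

/-!
Turing determinacy implies that there is no maximal independent family of sets of natural numbers,
and more generally that a reaping family is never the union of countably many pieces without
infinite almost disjoint subfamilies.  Stated as an explicit reduction to the determinacy of
countably many Turing invariant sets.
-/

namespace Pool.Agent.Results.MP_917879_lc.ReapingFamilies

open Pool.Agent.H685R3 Pool.Agent.R590.Td

/-- `x` and `y` have the same Turing degree (Mathlib's Turing reducibility, for characteristic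
functions). -/
def SameDegree (x y : ℕ → Bool) : Prop :=
  TuringReducible (charFn x) (charFn y) ∧ TuringReducible (charFn y) (charFn x)

/-- The set of all `x` such that for some `x'` of the same Turing degree the set coded by `e x'`
almost contains a member of `𝓢`. -/
def Sat (e : (ℕ → Bool) → ℕ → Bool) (𝓢 : Set (Set ℕ)) : Set (ℕ → Bool) :=
  {x | ∃ x', SameDegree x' x ∧ ∃ R ∈ 𝓢, (R \ {n | e x' n = true}).Finite}

/-- There is a Borel map `e` of the Cantor space into itself with the following properties.
(1) For every set `𝓢` of sets of natural numbers, `Sat e 𝓢` is Turing invariant.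
(2) Let `𝓡 0, 𝓡 1, ...` be sets of sets of natural numbers whose union is reaping: for every `X`
there is a member `R` of some `𝓡 k` such that `R \ X` or `R ∩ X` is finite. If all the sets
`Sat e (𝓡 k)` are determined, then for some `k` there is a partition of the natural numbers into
intervals (up to a finite set) such that the union of any infinite set of these intervals almost
contains a member of `𝓡 k`.
(3) If `𝓔` is a maximal independent family, then it is not the case that all the sets
`Sat e (Combs 𝓔 k)` are determined, where `Combs 𝓔 k` is the set of the Boolean combinations of at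
most `k` members of `𝓔`. -/
theorem result :
    ∃ e : (ℕ → Bool) → ℕ → Bool, Measurable e ∧
      (∀ 𝓢 : Set (Set ℕ), TuringInvariant (Sat e 𝓢)) ∧
      (∀ 𝓡 : ℕ → Set (Set ℕ),
        (∀ X : Set ℕ, ∃ k, ∃ R ∈ 𝓡 k, (R \ X).Finite ∨ (R ∩ X).Finite) →
        (∀ k, Determined (Sat e (𝓡 k))) →
        ∃ k, ∃ s : ℕ → ℕ, StrictMono s ∧ ∀ D : Set ℕ, D.Infinite →
          ∃ R ∈ 𝓡 k, (R \ {m | ∃ i ∈ D, s i ≤ m ∧ m < s (i + 1)}).Finite) ∧
      (∀ 𝓔 : Set (Set ℕ), MaxIndependent 𝓔 → ¬ ∀ k, Determined (Sat e (Combs 𝓔 k))) := by
  have key : ∀ 𝓢 : Set (Set ℕ), Sat Pool.Agent.W885.TD.ee 𝓢 = satE (Above 𝓢) := by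
    intro 𝓢
    ext x
    exact ⟨fun ⟨x', h, h'⟩ => ⟨x', h.1, h.2, h'⟩, fun ⟨x', h1, h2, h'⟩ => ⟨x', ⟨h1, h2⟩, h'⟩⟩
  refine ⟨Pool.Agent.W885.TD.ee, measurable_pi_lambda _ Pool.Agent.W885.TD.measurable_ee,
    fun 𝓢 => ?_, fun 𝓡 hR hD => ?_, fun 𝓔 hE hD => ?_⟩
  · rw [key]
    exact satE_invariant _
  · exact reaping hR fun k => key (𝓡 k) ▸ hD k
  · exact no_maxIndependent hE fun k => key (Combs 𝓔 k) ▸ hD k

end Pool.Agent.Results.MP_917879_lc.ReapingFamilies
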